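import Mathlib

/-! # Module T (tensorisation) -/

set_option autoImplicit false
open Finset

namespace SetCoverMono

namespace Tensor

/-- Minkowski, by convexity. -/
lemma convex_sum {α β : Type*} [Fintype α] [Fintype β] (Z : α → β → ℝ) (z : β → ℝ) (c : ℝ)
    (T : ℕ) (hT : 1 ≤ T) (hZ : ∀ a w, 0 ≤ Z a w) (hz : ∀ w, 0 ≤ z w)
    (h : ∀ w, ∑ a, Z a w ^ T ≤ c * z w ^ T) :
    ∑ a, (∑ w, Z a w) ^ T ≤ c * (∑ w, z w) ^ T := by
  classical
  have hT0 : T ≠ 0 := by omega
  -- `z w = 0` forces `Z a w = 0`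
  have h0 : ∀ w, z w = 0 → ∀ a, Z a w = 0 := by
    intro w hw a
    have h1 := h w
    rw [hw, zero_pow hT0, mul_zero] at h1
    have h2 : Z a w ^ T ≤ 0 :=
      (Finset.single_le_sum (f := fun a => Z a w ^ T) (fun a _ => pow_nonneg (hZ a w) T)
        (Finset.mem_univ a)).trans h1
    exact pow_eq_zero_iff hT0 |>.mp (le_antisymm h2 (pow_nonneg (hZ a w) T))
  set s : ℝ := ∑ w, z w with hs
  have hs0 : 0 ≤ s := Finset.sum_nonneg fun w _ => hz w
  rcases hs0.eq_or_lt with hs1 | hs1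
  · have hall : ∀ w, z w = 0 := by
      intro w
      have := (Finset.sum_eq_zero_iff_of_nonneg (fun w _ => hz w)).mp hs1.symm w (Finset.mem_univ w)
      exact this
    have : ∀ a, ∑ w, Z a w = 0 := fun a => Finset.sum_eq_zero fun w _ => h0 w (hall w) a
    simp only [this]
    rw [← hs1]
    simp [zero_pow hT0]
  · have key : ∀ a, (∑ w, Z a w) ^ T ≤ ∑ w, z w / s * (Z a w * s / z w) ^ T := by
      intro a
      have e1 : ∑ w, Z a w = ∑ w, z w / s * (Z a w * s / z w) := by
        refine Finset.sum_congr rfl fun w _ => ?_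
        by_cases hw : z w = 0
        · rw [h0 w hw a, hw]; simp
        · field_simp
      rw [e1]
      refine Real.pow_arith_mean_le_arith_mean_pow _ _ _ (fun w _ => div_nonneg (hz w) hs0) ?_
        (fun w _ => div_nonneg (mul_nonneg (hZ a w) hs0) (hz w)) T
      rw [← Finset.sum_div, ← hs, div_self hs1.ne']
    calc ∑ a, (∑ w, Z a w) ^ T ≤ ∑ a, ∑ w, z w / s * (Z a w * s / z w) ^ T :=
          Finset.sum_le_sum fun a _ => key a
      _ = ∑ w, z w / s * ((s / z w) ^ T * ∑ a, Z a w ^ T) := by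
          rw [Finset.sum_comm]
          refine Finset.sum_congr rfl fun w _ => ?_
          rw [Finset.mul_sum, Finset.mul_sum]
          refine Finset.sum_congr rfl fun a _ => ?_
          rw [mul_div_assoc, mul_pow]; ring
      _ ≤ ∑ w, z w / s * (s ^ T * c) := by
          refine Finset.sum_le_sum fun w _ => ?_
          by_cases hw : z w = 0
          · rw [hw]; simp
          · have hw' : 0 < z w := lt_of_le_of_ne (hz w) (Ne.symm hw)
            refine mul_le_mul_of_nonneg_left ?_ (div_nonneg (hz w) hs0)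
            calc (s / z w) ^ T * ∑ a, Z a w ^ T ≤ (s / z w) ^ T * (c * z w ^ T) :=
                  mul_le_mul_of_nonneg_left (h w) (by positivity)
              _ = s ^ T * c := by
                  rw [div_pow]
                  field_simp
      _ = c * s ^ T := by
          rw [← Finset.sum_mul, ← Finset.sum_div, ← hs, div_self hs1.ne', one_mul, mul_comm]

lemma sum_cons {p n : ℕ} {M : Type*} [AddCommMonoid M] [NeZero p]
    (φ : (Fin (n + 1) → ZMod p) → M) :
    ∑ f : Fin (n + 1) → ZMod p, φ f = ∑ a : ZMod p, ∑ f : Fin n → ZMod p, φ (Fin.cons a f) := by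
  rw [← Finset.sum_product']
  refine (Fintype.sum_equiv (Fin.consEquiv (fun _ : Fin (n + 1) => ZMod p)) _ _ fun x => ?_).symm
  rfl

lemma dot_cons {p n : ℕ} (a s : ZMod p) (f w : Fin n → ZMod p) :
    (Fin.cons a f : Fin (n + 1) → ZMod p) ⬝ᵥ (Fin.cons s w : Fin (n + 1) → ZMod p)
      = a * s + f ⬝ᵥ w := by
  simp [dotProduct, Fin.sum_univ_succ]

end Tensor

/-- MODULE T. Tensorisation. -/
theorem tensor {p : ℕ} [Fact p.Prime] {q : ℝ} (hq : 0 < q) {t T : ℕ} (hT : 1 ≤ T)
    (hqT : q * T = 2 * t) {S : Finset (ZMod p)}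
    (h1 : ∀ A : ZMod p → ℂ, ∑ a : ZMod p, ‖∑ s ∈ S, A s * ZMod.stdAddChar (a * s)‖ ^ (2 * t) ≤
        p * (∑ s ∈ S, ‖A s‖ ^ q) ^ T)
    (n : ℕ) (A : (Fin n → ZMod p) → ℂ) (hA : ∀ w, A w ≠ 0 → ∀ i, w i ∈ S) :
    ∑ f : Fin n → ZMod p, ‖∑ w : Fin n → ZMod p, A w * ZMod.stdAddChar (f ⬝ᵥ w)‖ ^ (2 * t) ≤
      (p : ℝ) ^ n * (∑ w, ‖A w‖ ^ q) ^ T := by
  classical
  have hpow : ∀ x : ℝ, 0 ≤ x → (x ^ q) ^ T = x ^ (2 * t) := by
    intro x hx
    rw [← Real.rpow_natCast (x ^ q) T, ← Real.rpow_mul hx, hqT]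
    have : (2 * (t : ℝ)) = ((2 * t : ℕ) : ℝ) := by push_cast; ring
    rw [this, Real.rpow_natCast]
  induction n with
  | zero =>
    simp only [Fintype.sum_unique, pow_zero, one_mul]
    rw [hpow _ (norm_nonneg _)]
    simp [dotProduct]
  | succ n ih =>
    -- the coefficients `A ^ a`
    set B : ZMod p → (Fin n → ZMod p) → ℂ := fun a w =>
      ∑ s ∈ S, A (Fin.cons s w) * ZMod.stdAddChar (a * s) with hB
    have hB' : ∀ a w, B a w = ∑ s, A (Fin.cons s w) * ZMod.stdAddChar (a * s) := by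
      intro a w
      simp only [hB]
      refine Finset.sum_subset (Finset.subset_univ S) fun s _ hs => ?_
      have : A (Fin.cons s w) = 0 := by
        by_contra hne
        have := hA _ hne 0
        rw [Fin.cons_zero] at this
        exact hs this
      rw [this, zero_mul]
    have hBA : ∀ a w, B a w ≠ 0 → ∀ i, w i ∈ S := by
      intro a w hne i
      simp only [hB] at hne
      obtain ⟨s, _, hs⟩ := Finset.exists_ne_zero_of_sum_ne_zero hne
      have := hA _ (left_ne_zero_of_mul hs) i.succ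
      rwa [Fin.cons_succ] at this
    have e1 : ∑ f : Fin (n + 1) → ZMod p,
        ‖∑ w : Fin (n + 1) → ZMod p, A w * ZMod.stdAddChar (f ⬝ᵥ w)‖ ^ (2 * t) =
        ∑ a : ZMod p, ∑ f : Fin n → ZMod p,
          ‖∑ w : Fin n → ZMod p, B a w * ZMod.stdAddChar (f ⬝ᵥ w)‖ ^ (2 * t) := by
      rw [Tensor.sum_cons]
      refine Finset.sum_congr rfl fun a _ => Finset.sum_congr rfl fun f _ => ?_
      congr 2
      rw [Tensor.sum_cons, Finset.sum_comm]
      refine Finset.sum_congr rfl fun w _ => ?_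
      rw [hB', Finset.sum_mul]
      refine Finset.sum_congr rfl fun s _ => ?_
      rw [Tensor.dot_cons, AddChar.map_add_eq_mul]
      ring
    rw [e1]
    have e2 : ∑ w : Fin (n + 1) → ZMod p, ‖A w‖ ^ q =
        ∑ w : Fin n → ZMod p, ∑ s ∈ S, ‖A (Fin.cons s w)‖ ^ q := by
      rw [Tensor.sum_cons, Finset.sum_comm]
      refine Finset.sum_congr rfl fun w _ => ?_
      symm
      refine Finset.sum_subset (Finset.subset_univ S) fun s _ hs => ?_
      have : A (Fin.cons s w) = 0 := by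
        by_contra hne
        have := hA _ hne 0
        rw [Fin.cons_zero] at this
        exact hs this
      rw [this, norm_zero, Real.zero_rpow hq.ne']
    rw [e2]
    calc ∑ a : ZMod p, ∑ f : Fin n → ZMod p,
          ‖∑ w : Fin n → ZMod p, B a w * ZMod.stdAddChar (f ⬝ᵥ w)‖ ^ (2 * t)
        ≤ ∑ a : ZMod p, (p : ℝ) ^ n * (∑ w, ‖B a w‖ ^ q) ^ T :=
          Finset.sum_le_sum fun a _ => ih (B a) (hBA a)
      _ = (p : ℝ) ^ n * ∑ a : ZMod p, (∑ w, ‖B a w‖ ^ q) ^ T := by rw [Finset.mul_sum]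
      _ ≤ (p : ℝ) ^ n * (p * (∑ w : Fin n → ZMod p, ∑ s ∈ S, ‖A (Fin.cons s w)‖ ^ q) ^ T) := by
          refine mul_le_mul_of_nonneg_left ?_ (by positivity)
          refine Tensor.convex_sum (fun a w => ‖B a w‖ ^ q) _ p T hT
            (fun a w => Real.rpow_nonneg (norm_nonneg _) q)
            (fun w => Finset.sum_nonneg fun s _ => Real.rpow_nonneg (norm_nonneg _) q) ?_
          intro w
          have := h1 (fun s => A (Fin.cons s w))
          refine le_trans (le_of_eq ?_) this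
          refine Finset.sum_congr rfl fun a _ => ?_
          rw [hpow _ (norm_nonneg _)]
      _ = _ := by rw [pow_succ]; ring

end SetCoverMono
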